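import Pool.Agent.U540.HC.Stm

/-!
# Project HC, package GRID: the grid instances of 3-SAT
-/

set_option autoImplicit false

namespace Pool.Agent.U433.HC

open Pool.Agent.U540.HC

/-- the region of the grid -/
def Reg (m D : ℕ) (p : Pos) : Prop := (-(2 ^ m : ℤ) ≤ p.1 ∧ p.1 < D + 2 ^ m) ∧ 0 ≤ p.2 ∧ p.2 < m

open Classical in
/-- the label of an inside cell -/
noncomputable def lb (m D : ℕ) (A A' : Set ℕ) (p : Pos) : Lab :=
  { right := decide (p.1 + 1 < D + 2 ^ m)
    bit :=
      if p.1 < 0 then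
        (if (-1 - p.1).toNat ∈ A then some ((-1 - p.1).toNat.testBit p.2.toNat) else none)
      else if p.1 < D then none
      else (if (p.1 - D).toNat ∈ A' then some ((p.1 - D).toNat.testBit p.2.toNat) else none)
    st := decide (p.2 = 0)
    en := decide (p.2 = m - 1) }

theorem grid_in {m D : ℕ} {A A' : Set ℕ} {p : Pos} (h : Reg m D p) :
    grid m D A A' p = some (lb m D A A' p) := by
  unfold grid
  exact if_pos h

theorem of_has {m D : ℕ} {A A' : Set ℕ} {p : Pos} {c : Jn} (h : has (grid m D A A' p) c) :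
    Reg m D p ∧ has (some (lb m D A A' p)) c := by
  by_cases hr : Reg m D p
  · rw [grid_in hr] at h
    exact ⟨hr, h⟩
  · exfalso
    have h0 : grid m D A A' p = none := if_neg hr
    rw [h0] at h
    cases c <;> exact h

theorem wf (m D : ℕ) (A A' : Set ℕ) : WF (grid m D A A') := by
  intro p c hc k
  obtain ⟨hr, h⟩ := of_has hc
  have key : Reg m D (p + (cd c k).1) := by
    obtain ⟨⟨h1, h2⟩, h3, h4⟩ := hr
    have h0 : Reg m D (p + (0, 0)) := by
      refine ⟨⟨?_, ?_⟩, ?_, ?_⟩ <;> simpa
    cases c with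
    | hc a b =>
      have hR : p.1 + 1 < D + 2 ^ m := by
        have h5 : decide (p.1 + 1 < (D : ℤ) + 2 ^ m) = true := h
        exact of_decide_eq_true h5
      fin_cases k
      · exact h0
      · refine ⟨⟨?_, ?_⟩, ?_, ?_⟩
        · show -(2 ^ m : ℤ) ≤ p.1 + 1
          linarith
        · exact hR
        · show 0 ≤ p.2 + 0
          linarith
        · show p.2 + 0 < m
          linarith
      · exact h0
    | vc a =>
      have hS : p.2 ≠ 0 := by
        have h5 : decide (p.2 = 0) = false := h.2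
        exact of_decide_eq_false h5
      fin_cases k
      · exact h0
      · refine ⟨⟨?_, ?_⟩, ?_, ?_⟩
        · show -(2 ^ m : ℤ) ≤ p.1 + 0
          linarith
        · show p.1 + 0 < D + 2 ^ m
          linarith
        · show 0 ≤ p.2 + -1
          omega
        · show p.2 + -1 < m
          linarith
      · exact h0
    | sc a b => fin_cases k <;> exact h0
    | ec a b => fin_cases k <;> exact h0
  rw [grid_in key]
  exact Option.some_ne_none _

/-- the number of a column -/
def cn (D : ℕ) (j : ℤ) : ℕ := if j < 0 then (-1 - j).toNat else (j - D).toNat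

/-- the bit of a cell is the bit of the number of the column, and the column is active -/
theorem bit_eq {m D : ℕ} {A A' : Set ℕ} {p : Pos} {a : Bool} (hr : Reg m D p)
    (h : (lb m D A A' p).bit = some a) :
    a = (cn D p.1).testBit p.2.toNat ∧ cn D p.1 < 2 ^ m ∧ (cn D p.1 ∈ A ∨ cn D p.1 ∈ A') := by
  classical
  obtain ⟨⟨h1, h2⟩, h3, h4⟩ := hr
  have hp : ((2 ^ m : ℕ) : ℤ) = 2 ^ m := by push_cast; rfl
  unfold lb at h
  simp only at h
  unfold cn
  by_cases hj : p.1 < 0
  · rw [if_pos hj] at h ⊢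
    by_cases hA : (-1 - p.1).toNat ∈ A
    · rw [if_pos hA, Option.some.injEq] at h
      refine ⟨h.symm, ?_, Or.inl hA⟩
      omega
    · rw [if_neg hA] at h
      exact absurd h (by simp)
  · rw [if_neg hj] at h ⊢
    by_cases hD : p.1 < D
    · rw [if_pos hD] at h
      exact absurd h (by simp)
    · rw [if_neg hD] at h
      by_cases hA : (p.1 - D).toNat ∈ A'
      · rw [if_pos hA, Option.some.injEq] at h
        refine ⟨h.symm, ?_, Or.inr hA⟩
        omega
      · rw [if_neg hA] at h
        exact absurd h (by simp)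

theorem sat (m D : ℕ) (A A' : Set ℕ) (t : ℕ) (ht : t < 2 ^ m) (hA : t ∉ A) (hA' : t ∉ A') :
    Sat (grid m D A A') := by
  classical
  refine ⟨fun p k => match k with
    | Kd.x => t.testBit p.2.toNat
    | Kd.s => decide (∃ i ≤ p.2.toNat, t.testBit i ≠ (cn D p.1).testBit i)
    | Kd.d => false
    | Kd.e => false, fun p c hc => ?_⟩
  obtain ⟨hr, h⟩ := of_has hc
  cases c with
  | hc a b =>
    by_cases hx : t.testBit p.2.toNat = a
    · refine ⟨1, ?_⟩
      show t.testBit (p.2 + 0).toNat ≠ !a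
      rw [add_zero, hx]
      cases a <;> decide
    · exact ⟨0, by
        show t.testBit (p.2 + 0).toNat ≠ a
        rw [add_zero]
        exact hx⟩
  | vc a =>
    obtain ⟨ha, -, -⟩ := bit_eq hr h.1
    have hS : p.2 ≠ 0 := of_decide_eq_false h.2
    have hp := hr.2.1
    by_cases hx : t.testBit p.2.toNat = a
    · by_cases hs : ∃ i ≤ p.2.toNat, t.testBit i ≠ (cn D p.1).testBit i
      · obtain ⟨i, hi, hne⟩ := hs
        refine ⟨1, ?_⟩
        show decide (∃ i ≤ (p.2 + -1).toNat, t.testBit i ≠ (cn D (p.1 + 0)).testBit i) ≠ false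
        rw [add_zero]
        have hii : i ≠ p.2.toNat := by
          rintro rfl
          exact hne (hx.trans ha)
        rw [decide_eq_true ⟨i, by omega, hne⟩]
        decide
      · refine ⟨0, ?_⟩
        show decide (∃ i ≤ (p.2 + 0).toNat, t.testBit i ≠ (cn D (p.1 + 0)).testBit i) ≠ true
        rw [add_zero, add_zero, decide_eq_false hs]
        decide
    · exact ⟨2, by
        show t.testBit (p.2 + 0).toNat ≠ a
        rw [add_zero]
        exact hx⟩
  | sc a b =>
    obtain ⟨ha, -, -⟩ := bit_eq hr h.1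
    have hS : p.2 = 0 := of_decide_eq_true h.2
    by_cases hx : t.testBit p.2.toNat = a
    · refine ⟨0, ?_⟩
      show decide (∃ i ≤ (p.2 + 0).toNat, t.testBit i ≠ (cn D (p.1 + 0)).testBit i) ≠ true
      rw [add_zero, add_zero, decide_eq_false]
      · decide
      · rintro ⟨i, hi, hne⟩
        have hi0 : i = p.2.toNat := by
          rw [hS] at hi ⊢
          simpa using hi
        rw [hi0] at hne
        exact hne (hx.trans ha)
    · exact ⟨1, by
        show t.testBit (p.2 + 0).toNat ≠ a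
        rw [add_zero]
        exact hx⟩
  | ec a b =>
    obtain ⟨a', ha'⟩ := Option.ne_none_iff_exists'.1 h.1
    obtain ⟨-, hcn, hact⟩ := bit_eq hr ha'
    have hE : p.2 = m - 1 := of_decide_eq_true h.2
    have hp := hr.2.1
    refine ⟨0, ?_⟩
    show decide (∃ i ≤ (p.2 + 0).toNat, t.testBit i ≠ (cn D (p.1 + 0)).testBit i) ≠ false
    rw [add_zero, add_zero, decide_eq_true]
    · decide
    · by_contra hno
      push Not at hno
      have heq : t = cn D p.1 := by
        refine Nat.eq_of_testBit_eq fun i => ?_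
        by_cases hi : i ≤ p.2.toNat
        · exact hno i hi
        · have hmi : m ≤ i := by omega
          rw [Nat.testBit_lt_two_pow (ht.trans_le (Nat.pow_le_pow_right (by norm_num) hmi)),
            Nat.testBit_lt_two_pow (hcn.trans_le (Nat.pow_le_pow_right (by norm_num) hmi))]
      rcases hact with h1 | h1
      · rw [← heq] at h1
        exact hA h1
      · rw [← heq] at h1
        exact hA' h1

/-- if every column is active, the instance is not satisfiable -/
theorem unsat (m D : ℕ) (A A' : Set ℕ) (hm : 0 < m) (hall : ∀ t < 2 ^ m, t ∈ A ∨ t ∈ A') :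
    ¬ Sat (grid m D A A') := by
  classical
  rintro ⟨s, hs⟩
  have hpm : ((2 ^ m : ℕ) : ℤ) = 2 ^ m := by push_cast; rfl
  have hpos : (0 : ℤ) < 2 ^ m := by positivity
  -- one step to the right
  have hstep : ∀ (j i : ℤ), Reg m D (j, i) → j + 1 < D + 2 ^ m → s (j + 1, i) Kd.x = s (j, i) Kd.x := by
    intro j i hr hj
    have hh : has (grid m D A A' (j, i)) (Jn.hc (s (j, i) Kd.x) (s (j, i) Kd.d)) := by
      rw [grid_in hr]
      show decide (j + 1 < (D : ℤ) + 2 ^ m) = true
      exact decide_eq_true hj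
    obtain ⟨k, hk⟩ := hs _ _ hh
    fin_cases k
    · exfalso
      apply hk
      show s (j + 0, i + 0) Kd.x = s (j, i) Kd.x
      rw [add_zero, add_zero]
    · have h1 : s (j + 1, i + 0) Kd.x ≠ !(s (j, i) Kd.x) := hk
      rw [add_zero] at h1
      revert h1
      cases s (j + 1, i) Kd.x <;> cases s (j, i) Kd.x <;> simp
    · exfalso
      apply hk
      show s (j + 0, i + 0) Kd.d = s (j, i) Kd.d
      rw [add_zero, add_zero]
  -- constant along rows
  have hrow : ∀ (i : ℤ), 0 ≤ i → i < m → ∀ n : ℕ, -(2 ^ m : ℤ) + n < D + 2 ^ m →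
      s (-(2 ^ m : ℤ) + n, i) Kd.x = s (-(2 ^ m : ℤ), i) Kd.x := by
    intro i h0 h1 n
    induction n with
    | zero => intro _; simp
    | succ n ih =>
      intro hn
      have hn' : -(2 ^ m : ℤ) + n + 1 < D + 2 ^ m := by
        push_cast at hn
        linarith
      have h2 := hstep (-(2 ^ m : ℤ) + n) i ⟨⟨by linarith [Int.natCast_nonneg n], by linarith⟩, h0, h1⟩ hn'
      have h3 : (-(2 ^ m : ℤ) + ((n + 1 : ℕ) : ℤ)) = -(2 ^ m : ℤ) + n + 1 := by push_cast; ring
      rw [h3, h2]
      exact ih (by linarith)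
  have hconst : ∀ (i j : ℤ), 0 ≤ i → i < m → -(2 ^ m : ℤ) ≤ j → j < D + 2 ^ m →
      s (j, i) Kd.x = s (0, i) Kd.x := by
    have key : ∀ (i j : ℤ), 0 ≤ i → i < m → -(2 ^ m : ℤ) ≤ j → j < D + 2 ^ m →
        s (j, i) Kd.x = s (-(2 ^ m : ℤ), i) Kd.x := by
      intro i j h0 h1 h2 h3
      have e : j = -(2 ^ m : ℤ) + ((j + 2 ^ m).toNat : ℤ) := by
        rw [Int.toNat_of_nonneg (by linarith)]
        ring
      rw [e]
      exact hrow i h0 h1 _ (by rw [← e]; exact h3)
    intro i j h0 h1 h2 h3
    have hD : (0 : ℤ) ≤ D := Int.natCast_nonneg D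
    rw [key i j h0 h1 h2 h3, key i 0 h0 h1 (by linarith) (by linarith)]
  set t : ℕ := Nat.ofBits fun i : Fin m => s (0, (i : ℕ)) Kd.x with ht
  have htb : ∀ i : ℕ, i < m → t.testBit i = s (0, (i : ℤ)) Kd.x := fun i hi =>
    Nat.testBit_ofBits_lt _ i hi
  have htlt : t < 2 ^ m := Nat.ofBits_lt_two_pow _
  -- the column of t
  obtain ⟨j, hj1, hj2, hbit⟩ : ∃ j : ℤ, -(2 ^ m : ℤ) ≤ j ∧ j < D + 2 ^ m ∧
      ∀ i : ℤ, (lb m D A A' (j, i)).bit = some (t.testBit i.toNat) := by
    rcases hall t htlt with h | h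
    · refine ⟨-1 - t, by omega, by omega, fun i => ?_⟩
      unfold lb
      simp only
      have e : (-1 - (-1 - (t : ℤ))).toNat = t := by
        rw [sub_sub_cancel]
        exact Int.toNat_natCast t
      rw [if_pos (by omega), e, if_pos h]
    · refine ⟨D + t, by omega, by omega, fun i => ?_⟩
      unfold lb
      simp only
      have e : ((D : ℤ) + t - D).toNat = t := by
        rw [add_sub_cancel_left]
        exact Int.toNat_natCast t
      rw [if_neg (by omega), if_neg (by omega), e, if_pos h]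
  have hx : ∀ i : ℕ, i < m → s (j, (i : ℤ)) Kd.x = t.testBit i := by
    intro i hi
    rw [htb i hi]
    exact hconst i j (by omega) (by omega) hj1 hj2
  have hfalse : ∀ i : ℕ, i < m → s (j, (i : ℤ)) Kd.s = false := by
    intro i
    induction i with
    | zero =>
      intro hi
      have hr : Reg m D (j, ((0 : ℕ) : ℤ)) := ⟨⟨hj1, hj2⟩, by simp, by simpa using hi⟩
      have hh : has (grid m D A A' (j, ((0 : ℕ) : ℤ))) (Jn.sc (t.testBit 0) (s (j, ((0 : ℕ) : ℤ)) Kd.d)) := by
        rw [grid_in hr]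
        refine ⟨?_, ?_⟩
        · have := hbit ((0 : ℕ) : ℤ)
          simpa using this
        · show decide (((0 : ℕ) : ℤ) = 0) = true
          simp
      obtain ⟨k, hk⟩ := hs _ _ hh
      fin_cases k
      · have h1 : s (j + 0, ((0 : ℕ) : ℤ) + 0) Kd.s ≠ true := hk
        rw [add_zero, add_zero] at h1
        simpa using h1
      · exfalso
        apply hk
        show s (j + 0, ((0 : ℕ) : ℤ) + 0) Kd.x = t.testBit 0
        rw [add_zero, add_zero]
        exact hx 0 hi
      · exfalso
        apply hk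
        show s (j + 0, ((0 : ℕ) : ℤ) + 0) Kd.d = s (j, ((0 : ℕ) : ℤ)) Kd.d
        rw [add_zero, add_zero]
    | succ i ih =>
      intro hi
      have ih' := ih (by omega)
      have hr : Reg m D (j, ((i + 1 : ℕ) : ℤ)) := ⟨⟨hj1, hj2⟩, by
        show (0 : ℤ) ≤ ((i + 1 : ℕ) : ℤ)
        omega, by
        show ((i + 1 : ℕ) : ℤ) < m
        omega⟩
      have hh : has (grid m D A A' (j, ((i + 1 : ℕ) : ℤ))) (Jn.vc (t.testBit (i + 1))) := by
        rw [grid_in hr]
        refine ⟨?_, ?_⟩
        · have := hbit ((i + 1 : ℕ) : ℤ)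
          rw [Int.toNat_natCast] at this
          exact this
        · show decide (((i + 1 : ℕ) : ℤ) = 0) = false
          apply decide_eq_false
          omega
      obtain ⟨k, hk⟩ := hs _ _ hh
      fin_cases k
      · have h1 : s (j + 0, ((i + 1 : ℕ) : ℤ) + 0) Kd.s ≠ true := hk
        rw [add_zero, add_zero] at h1
        simpa using h1
      · exfalso
        apply hk
        show s (j + 0, ((i + 1 : ℕ) : ℤ) + -1) Kd.s = false
        have e : ((i + 1 : ℕ) : ℤ) + -1 = (i : ℤ) := by push_cast; ring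
        rw [add_zero, e]
        exact ih'
      · exfalso
        apply hk
        show s (j + 0, ((i + 1 : ℕ) : ℤ) + 0) Kd.x = t.testBit (i + 1)
        rw [add_zero, add_zero]
        exact hx (i + 1) hi
  -- the last row
  have hlast : (((m - 1 : ℕ) : ℤ)) = m - 1 := by omega
  have hr : Reg m D (j, ((m - 1 : ℕ) : ℤ)) := ⟨⟨hj1, hj2⟩, by simp, by simp; omega⟩
  have hh : has (grid m D A A' (j, ((m - 1 : ℕ) : ℤ)))
      (Jn.ec (s (j, ((m - 1 : ℕ) : ℤ)) Kd.d) (s (j, ((m - 1 : ℕ) : ℤ)) Kd.e)) := by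
    rw [grid_in hr]
    refine ⟨?_, ?_⟩
    · rw [hbit]
      exact Option.some_ne_none _
    · show decide (((m - 1 : ℕ) : ℤ) = m - 1) = true
      exact decide_eq_true hlast
  obtain ⟨k, hk⟩ := hs _ _ hh
  fin_cases k
  · apply hk
    show s (j + 0, ((m - 1 : ℕ) : ℤ) + 0) Kd.s = false
    rw [add_zero, add_zero]
    exact hfalse (m - 1) (by omega)
  · apply hk
    show s (j + 0, ((m - 1 : ℕ) : ℤ) + 0) Kd.d = s (j, ((m - 1 : ℕ) : ℤ)) Kd.d
    rw [add_zero, add_zero]
  · apply hk
    show s (j + 0, ((m - 1 : ℕ) : ℤ) + 0) Kd.e = s (j, ((m - 1 : ℕ) : ℤ)) Kd.e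
    rw [add_zero, add_zero]

/-- Package GRID. -/
theorem t_GRID : GridStm :=
  ⟨wf, fun m D A A' t ht hA hA' => sat m D A A' t ht hA hA', fun m D A A' hm hall => unsat m D A A' hm hall⟩

end Pool.Agent.U433.HC
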